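import Mathlib

/-!
# Frobenius' theorem for coprime factorizations

Let `k` and `l` be coprime and let `G` be a finite group whose order divides `k * l`. Then the
number of `g ∈ G` with `g ^ k = 1` is divisible by the greatest common divisor of `|G|` and `k`.
-/

set_option autoImplicit false

namespace Pool.Agent.Q117.Fr

universe u

/-- The number of the solutions of `g ^ k = 1`. -/
noncomputable def sol (G : Type u) [Group G] (k : ℕ) : ℕ := Nat.card {g : G // g ^ k = 1}

theorem sol_congr {G H : Type u} [Group G] [Group H] (e : G ≃* H) (k : ℕ) :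
    sol G k = sol H k := by
  unfold sol
  apply Nat.card_congr
  refine e.toEquiv.subtypeEquiv fun g => ?_
  show g ^ k = 1 ↔ (e g) ^ k = 1
  rw [← map_pow]
  exact ⟨fun h => by rw [h, map_one], fun h => by
    rwa [← map_one e, e.injective.eq_iff] at h⟩

section

variable {G : Type u} [Group G]

theorem exists_equiv {k l : ℕ} (hkl : Nat.Coprime k l) (hG : Nat.card G ∣ k * l) :
    Nonempty (G ≃ Σ v : {v : G // v ^ l = 1},
      {h : Subgroup.centralizer {(v : G)} // h ^ k = 1}) := by
  -- exponents
  obtain ⟨s, hs1, hs2⟩ : ∃ s : ℕ, s ≡ 1 [MOD l] ∧ s ≡ 0 [MOD k] :=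
    ⟨(Nat.chineseRemainder hkl.symm 1 0).1, (Nat.chineseRemainder hkl.symm 1 0).2.1,
      (Nat.chineseRemainder hkl.symm 1 0).2.2⟩
  obtain ⟨t, ht1, ht2⟩ : ∃ t : ℕ, t ≡ 1 [MOD k] ∧ t ≡ 0 [MOD l] :=
    ⟨(Nat.chineseRemainder hkl 1 0).1, (Nat.chineseRemainder hkl 1 0).2.1,
      (Nat.chineseRemainder hkl 1 0).2.2⟩
  have hks : k ∣ s := (Nat.modEq_zero_iff_dvd).1 hs2
  have hlt : l ∣ t := (Nat.modEq_zero_iff_dvd).1 ht2
  have hst : s + t ≡ 1 [MOD k * l] := by
    rw [← Nat.modEq_and_modEq_iff_modEq_mul hkl]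
    constructor
    · simpa using hs2.add ht1
    · simpa using hs1.add ht2
  have hpow : ∀ g : G, g ^ (k * l) = 1 := by
    intro g
    obtain ⟨c, hc⟩ := hG
    rw [hc, pow_mul, pow_card_eq_one', one_pow]
  have h1 : ∀ g : G, (g ^ s) ^ l = 1 := by
    intro g
    obtain ⟨c, hc⟩ := hks
    rw [← pow_mul, hc, show k * c * l = k * l * c by ring, pow_mul, hpow, one_pow]
  have h2 : ∀ g : G, (g ^ t) ^ k = 1 := by
    intro g
    obtain ⟨c, hc⟩ := hlt
    rw [← pow_mul, hc, show l * c * k = k * l * c by ring, pow_mul, hpow, one_pow]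
  have h3 : ∀ g : G, g ^ s * g ^ t = g := by
    intro g
    rw [← pow_add]
    have : g ^ (s + t) = g ^ 1 :=
      pow_eq_pow_iff_modEq.2 (hst.of_dvd (orderOf_dvd_of_pow_eq_one (hpow g)))
    rwa [pow_one] at this
  refine ⟨⟨fun g => ⟨⟨g ^ s, h1 g⟩, ⟨⟨g ^ t, ?_⟩, ?_⟩⟩, fun x => (x.1 : G) * (x.2.1 : G), ?_, ?_⟩⟩
  · refine Subgroup.mem_centralizer_singleton_iff.2 ?_
    rw [← pow_add, ← pow_add, add_comm]
  · apply Subtype.ext
    exact h2 g
  · intro g
    exact h3 g
  · rintro ⟨⟨u, hu⟩, ⟨⟨h, hhc⟩, hh⟩⟩
    have hh' : h ^ k = 1 := congrArg Subtype.val hh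
    have hcomm : Commute u h := by
      have := Subgroup.mem_centralizer_singleton_iff.1 hhc
      exact (this : h * u = u * h).symm
    have hdu := orderOf_dvd_of_pow_eq_one hu
    have hdh := orderOf_dvd_of_pow_eq_one hh'
    have e1 : (u * h) ^ s = u := by
      rw [hcomm.mul_pow]
      have : h ^ s = 1 := orderOf_dvd_iff_pow_eq_one.1 (hdh.trans hks)
      rw [this, mul_one]
      have : u ^ s = u ^ 1 := pow_eq_pow_iff_modEq.2 (hs1.of_dvd hdu)
      rwa [pow_one] at this
    have e2 : (u * h) ^ t = h := by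
      rw [hcomm.mul_pow]
      have : u ^ t = 1 := orderOf_dvd_iff_pow_eq_one.1 (hdu.trans hlt)
      rw [this, one_mul]
      have : h ^ t = h ^ 1 := pow_eq_pow_iff_modEq.2 (ht1.of_dvd hdh)
      rwa [pow_one] at this
    have key : ∀ (u' : G) (hu' : u' ^ l = 1) (h' : G) (hc' : h' ∈ Subgroup.centralizer {u'})
        (hh' : (⟨h', hc'⟩ : Subgroup.centralizer {u'}) ^ k = 1)
        (hc : h ∈ Subgroup.centralizer {u})
        (hh2 : (⟨h, hc⟩ : Subgroup.centralizer {u}) ^ k = 1), u' = u → h' = h →
        (⟨⟨u', hu'⟩, ⟨⟨h', hc'⟩, hh'⟩⟩ : Σ u : {u : G // u ^ l = 1},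
          {h : Subgroup.centralizer {(u : G)} // h ^ k = 1}) = ⟨⟨u, hu⟩, ⟨⟨h, hc⟩, hh2⟩⟩ := by
      intro u' hu' h' hc' hh' hc hh2 hu1 hh1
      subst hu1
      subst hh1
      rfl
    exact key _ _ _ _ _ _ _ e1 e2

/-- The centralizers of conjugate elements are isomorphic. -/
theorem exists_cent_equiv (u g : G) : Nonempty (Subgroup.centralizer {u} ≃*
    Subgroup.centralizer {g * u * g⁻¹}) := by
  have h : (Subgroup.centralizer {u}).map (MulAut.conj g).toMonoidHom =
      Subgroup.centralizer {g * u * g⁻¹} := by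
    ext x
    rw [Subgroup.mem_map]
    constructor
    · rintro ⟨c, hc, rfl⟩
      rw [Subgroup.mem_centralizer_singleton_iff] at hc ⊢
      show (g * c * g⁻¹) * (g * u * g⁻¹) = (g * u * g⁻¹) * (g * c * g⁻¹)
      have e1 : (g * c * g⁻¹) * (g * u * g⁻¹) = g * (c * u) * g⁻¹ := by group
      have e2 : (g * u * g⁻¹) * (g * c * g⁻¹) = g * (u * c) * g⁻¹ := by group
      rw [e1, e2, hc]
    · intro hx
      rw [Subgroup.mem_centralizer_singleton_iff] at hx
      refine ⟨g⁻¹ * x * g, ?_, ?_⟩
      · rw [Subgroup.mem_centralizer_singleton_iff]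
        have e1 : g⁻¹ * x * g * u = g⁻¹ * (x * (g * u * g⁻¹)) * g := by group
        have e2 : u * (g⁻¹ * x * g) = g⁻¹ * ((g * u * g⁻¹) * x) * g := by group
        rw [e1, e2, hx]
      · show g * (g⁻¹ * x * g) * g⁻¹ = x
        group
  exact ⟨((MulAut.conj g).subgroupMap (Subgroup.centralizer {u})).trans
    (MulEquiv.subgroupCongr h)⟩

/-- The number of conjugates. -/
theorem card_conj (u : G) :
    Nat.card {v : G // IsConj u v} * Nat.card (Subgroup.centralizer {u}) = Nat.card G := by
  have e : {v : G // IsConj u v} ≃ G ⧸ Subgroup.centralizer {u} := by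
    symm
    refine Equiv.ofBijective (fun x => Quotient.liftOn' x
      (fun g => (⟨g * u * g⁻¹, isConj_iff.2 ⟨g, rfl⟩⟩ : {v : G // IsConj u v})) ?_) ⟨?_, ?_⟩
    · intro g h hgh
      have h1 : g⁻¹ * h ∈ Subgroup.centralizer {u} := QuotientGroup.leftRel_apply.1 hgh
      rw [Subgroup.mem_centralizer_singleton_iff] at h1
      apply Subtype.ext
      show g * u * g⁻¹ = h * u * h⁻¹
      have h2 : h * u * h⁻¹ = g * ((g⁻¹ * h) * u) * h⁻¹ := by group
      rw [h2, h1]
      group
    · intro x y hxy
      obtain ⟨g, rfl⟩ := QuotientGroup.mk_surjective x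
      obtain ⟨h, rfl⟩ := QuotientGroup.mk_surjective y
      have h1 : g * u * g⁻¹ = h * u * h⁻¹ := congrArg Subtype.val hxy
      rw [QuotientGroup.eq, Subgroup.mem_centralizer_singleton_iff]
      have h2 : (g⁻¹ * h) * u = g⁻¹ * (h * u * h⁻¹) * h := by group
      rw [h2, ← h1]
      group
    · rintro ⟨v, hv⟩
      obtain ⟨g, hg⟩ := isConj_iff.1 hv
      exact ⟨QuotientGroup.mk g, Subtype.ext hg⟩
  rw [Nat.card_congr e]
  exact (Subgroup.card_eq_card_quotient_mul_card_subgroup _).symm

/-- The central elements `v` with `v ^ l = 1`. -/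
def cenl (G : Type u) [Group G] (l : ℕ) : Subgroup G where
  carrier := {v | v ∈ Subgroup.center G ∧ v ^ l = 1}
  one_mem' := ⟨Subgroup.one_mem _, one_pow _⟩
  mul_mem' := by
    rintro a b ⟨ha, ha'⟩ ⟨hb, hb'⟩
    refine ⟨Subgroup.mul_mem _ ha hb, ?_⟩
    have hc : Commute a b := (Subgroup.mem_center_iff.1 hb a)
    rw [hc.mul_pow, ha', hb', one_mul]
  inv_mem' := by
    rintro a ⟨ha, ha'⟩
    exact ⟨Subgroup.inv_mem _ ha, by rw [inv_pow, ha', inv_one]⟩

theorem cenl_coprime [Finite G] {k l : ℕ} (hkl : Nat.Coprime k l) : Nat.Coprime k (Nat.card (cenl G l)) := by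
  rw [Nat.coprime_iff_gcd_eq_one]
  by_contra h
  obtain ⟨r, hr, hrd⟩ := Nat.exists_prime_and_dvd h
  have h1 : r ∣ k := hrd.trans (Nat.gcd_dvd_left _ _)
  have h2 : r ∣ Nat.card (cenl G l) := hrd.trans (Nat.gcd_dvd_right _ _)
  have hf : Fact r.Prime := ⟨hr⟩
  obtain ⟨x, hx⟩ := exists_prime_orderOf_dvd_card' r h2
  have h3 : (x : G) ^ l = 1 := x.2.2
  have h4 : x ^ l = 1 := Subtype.ext h3
  have h5 : r ∣ l := by
    rw [← hx]
    exact orderOf_dvd_of_pow_eq_one h4
  exact Nat.Prime.not_coprime_iff_dvd.2 ⟨r, hr, h1, h5⟩ hkl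

end

/-- Frobenius' theorem for coprime factorizations. -/
theorem frobenius {k l : ℕ} (hkl : Nat.Coprime k l) (n : ℕ) :
    ∀ (G : Type u) [Group G] [Finite G], Nat.card G ≤ n → Nat.card G ∣ k * l →
      Nat.gcd (Nat.card G) k ∣ sol G k := by
  classical
  induction n with
  | zero =>
    intro G _ _ h
    have := Nat.card_pos (α := G)
    omega
  | succ n ih =>
    intro G _ _ hGn hG
    have := Fintype.ofFinite G
    have := Fintype.ofFinite (ConjClasses G)
    let f : G → ℕ := fun v => sol (Subgroup.centralizer {v}) k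
    have hfc : ∀ u v : G, IsConj u v → f v = f u := by
      intro u v huv
      obtain ⟨g, rfl⟩ := isConj_iff.1 huv
      obtain ⟨e⟩ := exists_cent_equiv u g
      exact (sol_congr e k).symm
    have : Fintype {u : G // u ^ l = 1} := Fintype.ofFinite _
    have hcard : Nat.card G = ∑ u ∈ Finset.univ.filter (fun u : G => u ^ l = 1), f u := by
      obtain ⟨e⟩ := exists_equiv (G := G) hkl hG
      have h := Nat.card_congr e
      rw [Nat.card_sigma] at h
      rw [h]
      exact (Finset.sum_subtype (Finset.univ.filter (fun u : G => u ^ l = 1)) (by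
        intro x
        rw [Finset.mem_filter]
        exact ⟨fun h => h.2, fun h => ⟨Finset.mem_univ _, h⟩⟩) f).symm
    -- central and noncentral elements
    rw [← Finset.sum_filter_add_sum_filter_not _ (fun u : G => u ∈ Subgroup.center G)] at hcard
    have hcen : ∑ u ∈ (Finset.univ.filter (fun u : G => u ^ l = 1)).filter
        (fun u : G => u ∈ Subgroup.center G), f u = Nat.card (cenl G l) * sol G k := by
      have h1 : ∀ u ∈ (Finset.univ.filter (fun u : G => u ^ l = 1)).filter
          (fun u : G => u ∈ Subgroup.center G), f u = sol G k := by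
        intro u hu
        have hu' := (Finset.mem_filter.1 hu).2
        have h4 : Subgroup.centralizer {(u : G)} = ⊤ := by
          rw [Subgroup.eq_top_iff']
          intro x
          rw [Subgroup.mem_centralizer_singleton_iff]
          exact (Subgroup.mem_center_iff.1 hu' x)
        exact sol_congr ((MulEquiv.subgroupCongr h4).trans Subgroup.topEquiv) k
      rw [Finset.sum_congr rfl h1, Finset.sum_const, smul_eq_mul]
      congr 1
      symm
      apply Nat.subtype_card
      intro x
      rw [Finset.mem_filter, Finset.mem_filter]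
      exact ⟨fun h => ⟨h.2, h.1.2⟩, fun h => ⟨⟨Finset.mem_univ _, h.2⟩, h.1⟩⟩
    have hnon : Nat.gcd (Nat.card G) k ∣ ∑ u ∈ (Finset.univ.filter
        (fun u : G => u ^ l = 1)).filter (fun u : G => ¬ u ∈ Subgroup.center G), f u := by
      rw [← Finset.sum_fiberwise_of_maps_to (t := (Finset.univ : Finset (ConjClasses G)))
        (g := fun u : G => ConjClasses.mk u) (fun _ _ => Finset.mem_univ _)]
      apply Finset.dvd_sum
      intro c _
      rcases (((Finset.univ.filter (fun u : G => u ^ l = 1)).filter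
        (fun u : G => ¬ u ∈ Subgroup.center G)).filter
        (fun u => ConjClasses.mk u = c)).eq_empty_or_nonempty with he | ⟨u, hu⟩
      · rw [he, Finset.sum_empty]
        exact dvd_zero _
      · simp only [Finset.mem_filter, Finset.mem_univ, true_and] at hu
        obtain ⟨⟨hul, huc⟩, rfl⟩ := hu
        have hset : (((Finset.univ.filter (fun u : G => u ^ l = 1)).filter
            (fun u : G => ¬ u ∈ Subgroup.center G)).filter
            (fun v => ConjClasses.mk v = ConjClasses.mk u)) =
            Finset.univ.filter (fun v => IsConj u v) := by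
          ext v
          simp only [Finset.mem_filter, Finset.mem_univ, true_and,
            ConjClasses.mk_eq_mk_iff_isConj]
          constructor
          · exact fun h => h.2.symm
          · intro h
            obtain ⟨g, rfl⟩ := isConj_iff.1 h
            refine ⟨⟨?_, ?_⟩, h.symm⟩
            · rw [conj_pow, hul, mul_one, mul_inv_cancel]
            · intro hc
              apply huc
              have h1 : g⁻¹ * (g * u * g⁻¹) * g = g * u * g⁻¹ := by
                have := Subgroup.mem_center_iff.1 hc g⁻¹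
                rw [this, inv_mul_cancel_right]
              have h2 : g⁻¹ * (g * u * g⁻¹) * g = u := by group
              rw [← h2, h1]
              exact hc
        rw [hset, Finset.sum_congr rfl (fun v hv => hfc u v (Finset.mem_filter.1 hv).2),
          Finset.sum_const, smul_eq_mul]
        have h1 := card_conj u
        have h2 : Nat.card {v : G // IsConj u v} =
            (Finset.univ.filter (fun v => IsConj u v)).card := by
          apply Nat.subtype_card
          intro x
          simp
        rw [h2] at h1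
        have hlt : Nat.card (Subgroup.centralizer {u}) ≤ n := by
          have h3 : Subgroup.centralizer {u} ≠ ⊤ := by
            intro h4
            apply huc
            rw [Subgroup.mem_center_iff]
            intro g
            have : g ∈ Subgroup.centralizer {u} := by rw [h4]; trivial
            exact Subgroup.mem_centralizer_singleton_iff.1 this
          have h5 := Subgroup.card_le_card_group (Subgroup.centralizer {u})
          have h6 : Nat.card (Subgroup.centralizer {u}) ≠ Nat.card G := fun h7 =>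
            h3 (Subgroup.card_eq_iff_eq_top _ |>.1 h7)
          omega
        have h3 := ih (Subgroup.centralizer {u}) hlt
          ((Subgroup.card_subgroup_dvd_card _).trans hG)
        refine dvd_trans ?_ (Nat.mul_dvd_mul_left _ h3)
        rw [← h1]
        refine (Nat.gcd_mul_left_dvd_mul_gcd _ _ _).trans ?_
        exact Nat.mul_dvd_mul_right (Nat.gcd_dvd_left _ _) _
    rw [hcen] at hcard
    have h1 : Nat.gcd (Nat.card G) k ∣ Nat.card (cenl G l) * sol G k := by
      rw [← Nat.dvd_add_left hnon, ← hcard]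
      exact Nat.gcd_dvd_left _ _
    refine Nat.Coprime.dvd_of_dvd_mul_left ?_ h1
    exact Nat.Coprime.coprime_dvd_left (Nat.gcd_dvd_right _ _) (cenl_coprime hkl)

end Pool.Agent.Q117.Fr
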